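import Pool.Agent.Work.MP_196328_ag.Defs
import Pool.Agent.Work.MP_196328_ag.Main

set_option autoImplicit false

namespace Pool.Agent.Results.MP_196328_ag.OddVanishing

open Pool.Agent.Work.MP_196328_ag

/-- For every field `k`, every length `n` and every odd degree `i`, the `i`-th cohomology with
coefficients in `k` of the stack of length `n` torsion sheaves on the projective line is zero. -/
theorem result (k : Type*) [Field k] (n i : ℕ) (hi : Odd i) :
    CohomologyVanishes k (TorsionStack n) i :=
  main k n i hi

end Pool.Agent.Results.MP_196328_ag.OddVanishing
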